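import Pool.Agent.R302.SA.M4

set_option autoImplicit false

/-! # Gap series: moments of the partial sums -/

namespace Pool.Agent.R302.SA

open Complex Metric Set Filter Topology MeasureTheory
open Pool.Agent.W677.Mar Pool.Agent.R250.MC

/-- gaps of ratio `q` -/
def Gaps (q : ℝ) (n : ℕ → ℕ) : Prop := 1 ≤ n 0 ∧ ∀ k, q * n k ≤ n (k + 1)

variable {q A : ℝ} {n : ℕ → ℕ}

theorem gaps_sum (hn : Gaps q n) (m : ℕ) :
    (q - 1) * ∑ k ∈ Finset.range m, (n k : ℝ) ≤ n m := by
  induction m with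
  | zero => simp
  | succ m ih =>
    rw [Finset.sum_range_succ, mul_add]
    have := hn.2 m
    linarith

theorem gaps_pow (hq : 1 < q) (hn : Gaps q n) (k : ℕ) : q ^ k ≤ n k := by
  induction k with
  | zero => simpa using hn.1
  | succ k ih =>
    rw [pow_succ, mul_comm]
    exact (mul_le_mul_of_nonneg_left ih (by linarith)).trans (hn.2 k)

theorem gaps_one (hq : 1 < q) (hn : Gaps q n) (k : ℕ) : 1 ≤ n k := by
  have h1 := gaps_pow hq hn k
  have h2 := one_le_pow₀ hq.le (n := k)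
  have : (1 : ℝ) ≤ n k := h2.trans h1
  exact_mod_cast this

theorem gaps_mono (hq : 1 < q) (hn : Gaps q n) : StrictMono n := by
  apply strictMono_nat_of_lt_succ
  intro k
  have h1 := gaps_one hq hn k
  have h2 : (1 : ℝ) ≤ n k := by exact_mod_cast h1
  have h3 := hn.2 k
  have h4 : (n k : ℝ) < n (k + 1) := by nlinarith
  exact_mod_cast h4

theorem sq_sum (hq : 1 < q) (hn : Gaps q n) {y : ℕ → ℝ} (hy0 : ∀ k, 0 ≤ y k) (hy1 : ∀ k, y k ≤ 1)
    (m : ℕ) : (∑ k ∈ Finset.range m, (n k : ℝ) * y k) ^ 2 ≤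
      ∑ k ∈ Finset.range m, (n k : ℝ) ^ 2 * (y k ^ 2 + 2 / (q - 1) * y k) := by
  have hq0 : 0 < q - 1 := by linarith
  induction m with
  | zero => simp
  | succ m ih =>
    rw [Finset.sum_range_succ, Finset.sum_range_succ]
    have h1 : ∑ k ∈ Finset.range m, (n k : ℝ) * y k ≤ n m / (q - 1) := by
      have h2 : ∑ k ∈ Finset.range m, (n k : ℝ) * y k ≤ ∑ k ∈ Finset.range m, (n k : ℝ) := by
        apply Finset.sum_le_sum
        intro k _
        exact mul_le_of_le_one_right (by positivity) (hy1 k)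
      refine h2.trans ?_
      rw [le_div_iff₀ hq0, mul_comm]
      exact gaps_sum hn m
    have h3 : 2 * (∑ k ∈ Finset.range m, (n k : ℝ) * y k) * (n m * y m) ≤
        n m ^ 2 * (2 / (q - 1) * y m) := by
      have h4 : 0 ≤ (n m : ℝ) * y m := mul_nonneg (by positivity) (hy0 m)
      calc 2 * (∑ k ∈ Finset.range m, (n k : ℝ) * y k) * (n m * y m) ≤
            2 * (n m / (q - 1)) * (n m * y m) := by gcongr
        _ = _ := by ring
    nlinarith

noncomputable def Q0 (A q : ℝ) (n : ℕ → ℕ) (m : ℕ) (s : ℝ) : ℝ :=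
  A ^ 2 * ∑ k ∈ Finset.range m, (1 / 4 * Real.exp (2 * n k * s) + 2 / (q - 1) * Real.exp (n k * s))
noncomputable def Q1 (A q : ℝ) (n : ℕ → ℕ) (m : ℕ) (s : ℝ) : ℝ :=
  A ^ 2 * ∑ k ∈ Finset.range m, (n k : ℝ) *
    (1 / 2 * Real.exp (2 * n k * s) + 2 / (q - 1) * Real.exp (n k * s))
noncomputable def Q2 (A q : ℝ) (n : ℕ → ℕ) (m : ℕ) (s : ℝ) : ℝ :=
  A ^ 2 * ∑ k ∈ Finset.range m, (n k : ℝ) ^ 2 *
    (Real.exp (2 * n k * s) + 2 / (q - 1) * Real.exp (n k * s))

theorem exp_d (c s : ℝ) : HasDerivAt (fun s : ℝ => Real.exp (c * s)) (c * Real.exp (c * s)) s := by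
  have h := ((hasDerivAt_id s).const_mul c).exp
  refine h.congr_deriv ?_
  simp only [id, mul_one]
  ring

theorem Q0_d (m : ℕ) (s : ℝ) : HasDerivAt (Q0 A q n m) (Q1 A q n m s) s := by
  have h : ∀ k ∈ Finset.range m, HasDerivAt (fun s : ℝ => 1 / 4 * Real.exp (2 * n k * s) +
      2 / (q - 1) * Real.exp (n k * s)) ((n k : ℝ) *
      (1 / 2 * Real.exp (2 * n k * s) + 2 / (q - 1) * Real.exp (n k * s))) s := by
    intro k _
    have h1 := ((exp_d (2 * n k) s).const_mul (1 / 4)).add ((exp_d (n k) s).const_mul (2 / (q - 1)))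
    refine h1.congr_deriv ?_
    ring
  exact (HasDerivAt.fun_sum h).const_mul (A ^ 2)

theorem Q1_d (m : ℕ) (s : ℝ) : HasDerivAt (Q1 A q n m) (Q2 A q n m s) s := by
  have h : ∀ k ∈ Finset.range m, HasDerivAt (fun s : ℝ => (n k : ℝ) * (1 / 2 * Real.exp (2 * n k * s) +
      2 / (q - 1) * Real.exp (n k * s))) ((n k : ℝ) ^ 2 *
      (Real.exp (2 * n k * s) + 2 / (q - 1) * Real.exp (n k * s))) s := by
    intro k _
    have h1 := (((exp_d (2 * n k) s).const_mul (1 / 2)).add
      ((exp_d (n k) s).const_mul (2 / (q - 1)))).const_mul (n k : ℝ)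
    refine h1.congr_deriv ?_
    ring
  exact (HasDerivAt.fun_sum h).const_mul (A ^ 2)

/-- the partial sums -/
noncomputable def Hm (a : ℕ → ℂ) (n : ℕ → ℕ) (m : ℕ) (v : ℂ) : ℂ :=
  ∑ k ∈ Finset.range m, a k * v ^ n k

theorem Hm_d (a : ℕ → ℂ) (m : ℕ) (v : ℂ) :
    HasDerivAt (Hm a n m) (∑ k ∈ Finset.range m, a k * (n k * v ^ (n k - 1))) v := by
  have h : ∀ k ∈ Finset.range m, HasDerivAt (fun v : ℂ => a k * v ^ n k)
      (a k * (n k * v ^ (n k - 1))) v := fun k _ => (hasDerivAt_pow (n k) v).const_mul (a k)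
  exact HasDerivAt.fun_sum h

theorem drift_Hm (hq : 1 < q) (hn : Gaps q n) {a : ℕ → ℂ} (ha : ∀ k, ‖a k‖ ≤ A) (m : ℕ) :
    DriftG 0 (Q2 A q n m) (Hm a n m) := by
  intro v hv hv0 P hP
  have hvn : 0 < ‖v‖ := norm_pos_iff.2 hv0
  have hv1 : ‖v‖ < 1 := mem_ball_zero_iff.1 hv
  have hA : 0 ≤ A := (norm_nonneg _).trans (ha 0)
  rw [mul_zero, zero_mul, sub_zero, hP, norm_mul, Complex.norm_real,
    Real.norm_of_nonneg (by nlinarith : 0 ≤ 1 - ‖v‖ ^ 2), mul_pow]
  apply mul_le_mul_of_nonneg_left _ (sq_nonneg _)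
  have h1 : ‖v * deriv (Hm a n m) v‖ ≤ A * ∑ k ∈ Finset.range m, (n k : ℝ) * ‖v‖ ^ n k := by
    rw [(Hm_d a m v).deriv, Finset.mul_sum, Finset.mul_sum]
    refine (norm_sum_le _ _).trans ?_
    apply Finset.sum_le_sum
    intro k _
    have hk : v * v ^ (n k - 1) = v ^ n k := by
      rw [← pow_succ', Nat.sub_add_cancel (gaps_one hq hn k)]
    have e : v * (a k * (n k * v ^ (n k - 1))) = a k * (n k * v ^ n k) := by
      rw [← hk]; ring
    rw [e, norm_mul, norm_mul, norm_pow, Complex.norm_natCast]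
    exact mul_le_mul_of_nonneg_right (ha k) (by positivity)
  have h2 := pow_le_pow_left₀ (norm_nonneg _) h1 2
  rw [mul_pow] at h2
  refine h2.trans ?_
  unfold Q2
  apply mul_le_mul_of_nonneg_left _ (sq_nonneg _)
  refine (sq_sum hq hn (y := fun k => ‖v‖ ^ n k) (fun k => by positivity)
    (fun k => pow_le_one₀ (norm_nonneg _) hv1.le) m).trans (le_of_eq ?_)
  apply Finset.sum_congr rfl
  intro k _
  have e1 : Real.exp (n k * Real.log ‖v‖) = ‖v‖ ^ n k := by
    rw [Real.exp_nat_mul, Real.exp_log hvn]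
  have e2 : Real.exp (2 * n k * Real.log ‖v‖) = (‖v‖ ^ n k) ^ 2 := by
    rw [mul_assoc, two_mul, Real.exp_add, e1]
    ring
  rw [e1, e2]

theorem moments_Hm (hq : 1 < q) (hn : Gaps q n) {a : ℕ → ℂ} (ha : ∀ k, ‖a k‖ ≤ A) (m : ℕ) (t : ℂ)
    {r : ℝ} (hr0 : 0 < r) (hr1 : r < 1) :
    ∫ θ in (0 : ℝ)..(2 * Real.pi), Real.exp ((starRingEnd ℂ) t * Hm a n m (pt r θ)).re ≤
      2 * Real.pi * Real.exp (‖t‖ ^ 2 * Q0 A q n m (Real.log r)) := by
  have hq0 : 0 < q - 1 := by linarith
  apply moments (cc₀ := 0) (Φ0 := Q0 A q n m) (Φ1 := Q1 A q n m) (Φ2 := Q2 A q n m)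
  · intro v _
    exact (Hm_d a m v).differentiableAt.differentiableWithinAt
  · unfold Hm
    apply Finset.sum_eq_zero
    intro k _
    have := gaps_one hq hn k
    rw [zero_pow (by omega), mul_zero]
  · exact fun s _ => Q0_d m s
  · exact fun s _ => Q1_d m s
  · intro s _
    unfold Q0
    positivity
  · intro s _
    unfold Q1
    positivity
  · exact drift_Hm hq hn ha m
  · exact hr0
  · exact hr1

/-- the number of terms -/
theorem Q0_le (hq : 1 < q) (hn : Gaps q n) (m : ℕ) {δ : ℝ} (hδ0 : 0 < δ) (hδ1 : δ ≤ 1) :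
    Q0 A q n m (-δ) ≤ A ^ 2 * (1 / 4 + 2 / (q - 1)) *
      (Real.log (1 / δ) / Real.log q + 1 + q / (q - 1)) := by
  have hq0 : 0 < q - 1 := by linarith
  have hlq : 0 < Real.log q := Real.log_pos hq
  have hld : 0 ≤ Real.log (1 / δ) := Real.log_nonneg (by rw [le_div_iff₀ hδ0]; linarith)
  obtain ⟨κ, hκ⟩ : ∃ κ, κ = Real.log (1 / δ) / Real.log q := ⟨_, rfl⟩
  have hκ0 : 0 ≤ κ := by rw [hκ]; positivity
  obtain ⟨K0, hK0⟩ : ∃ K0, K0 = ⌈κ⌉₊ := ⟨_, rfl⟩
  have hK1 : κ ≤ K0 := by rw [hK0]; exact Nat.le_ceil κ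
  have hK2 : (K0 : ℝ) ≤ κ + 1 := by rw [hK0]; exact (Nat.ceil_lt_add_one hκ0).le
  have hK3 : 1 ≤ q ^ K0 * δ := by
    have h1 : Real.log (1 / δ) ≤ K0 * Real.log q := by
      rw [hκ, div_le_iff₀ hlq] at hK1
      exact hK1
    have h2 := Real.exp_le_exp.2 h1
    rw [Real.exp_log (by positivity), Real.exp_nat_mul, Real.exp_log (by linarith),
      div_le_iff₀ hδ0] at h2
    exact h2
  -- the terms
  have hu : ∀ k, Real.exp (n k * -δ) ≤ if k < K0 then 1 else (q⁻¹) ^ (k - K0) := by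
    intro k
    split_ifs with hk
    · apply Real.exp_le_one_iff.2
      have : 0 ≤ (n k : ℝ) * δ := by positivity
      linarith
    · push Not at hk
      have h1 : q ^ (k - K0) ≤ n k * δ := by
        calc q ^ (k - K0) ≤ q ^ (k - K0) * (q ^ K0 * δ) :=
              le_mul_of_one_le_right (by positivity) hK3
          _ = q ^ k * δ := by rw [← mul_assoc, ← pow_add, Nat.sub_add_cancel hk]
          _ ≤ n k * δ := mul_le_mul_of_nonneg_right (gaps_pow hq hn k) hδ0.le
      have h2 : (0 : ℝ) < q ^ (k - K0) := by positivity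
      have h3 : Real.exp (n k * -δ) ≤ (n k * δ)⁻¹ := by
        rw [mul_neg, Real.exp_neg]
        apply inv_anti₀ (h2.trans_le h1)
        have := Real.add_one_le_exp (n k * δ)
        linarith
      refine h3.trans ?_
      rw [inv_pow]
      exact inv_anti₀ h2 h1
  have hs : ∑ k ∈ Finset.range m, Real.exp (n k * -δ) ≤ κ + 1 + q / (q - 1) := by
    calc ∑ k ∈ Finset.range m, Real.exp (n k * -δ)
        ≤ ∑ k ∈ Finset.range m, (if k < K0 then 1 else (q⁻¹) ^ (k - K0)) :=
          Finset.sum_le_sum fun k _ => hu k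
      _ ≤ ∑ k ∈ Finset.range (K0 + m), (if k < K0 then 1 else (q⁻¹) ^ (k - K0)) := by
          apply Finset.sum_le_sum_of_subset_of_nonneg
          · exact Finset.range_mono (by omega)
          · intro k _ _
            split_ifs <;> positivity
      _ = ∑ k ∈ Finset.range K0, (1 : ℝ) + ∑ i ∈ Finset.range m, (q⁻¹) ^ i := by
          rw [Finset.sum_range_add]
          congr 1
          · apply Finset.sum_congr rfl
            intro k hk
            rw [Finset.mem_range] at hk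
            rw [if_pos hk]
          · apply Finset.sum_congr rfl
            intro i _
            rw [if_neg (by omega)]
            congr 1
            omega
      _ ≤ κ + 1 + q / (q - 1) := by
          have h4 : ∑ i ∈ Finset.range m, (q⁻¹) ^ i ≤ q / (q - 1) := by
            have h5 : q⁻¹ < 1 := inv_lt_one_of_one_lt₀ hq
            have h6 : 0 ≤ q⁻¹ := by positivity
            have h7 := (summable_geometric_of_lt_one h6 h5).sum_le_tsum (Finset.range m)
              (fun i _ => by positivity)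
            rw [tsum_geometric_of_lt_one h6 h5] at h7
            refine h7.trans (le_of_eq ?_)
            have : q ≠ 0 := by linarith
            field_simp
          simp only [Finset.sum_const, Finset.card_range, nsmul_eq_mul, mul_one]
          linarith
  unfold Q0
  rw [← hκ, mul_assoc]
  apply mul_le_mul_of_nonneg_left _ (sq_nonneg A)
  calc ∑ k ∈ Finset.range m, (1 / 4 * Real.exp (2 * n k * -δ) + 2 / (q - 1) * Real.exp (n k * -δ))
      ≤ ∑ k ∈ Finset.range m, (1 / 4 + 2 / (q - 1)) * Real.exp (n k * -δ) := by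
        apply Finset.sum_le_sum
        intro k _
        have h8 : Real.exp (2 * n k * -δ) ≤ Real.exp (n k * -δ) := by
          apply Real.exp_le_exp.2
          have : 0 ≤ (n k : ℝ) * δ := by positivity
          linarith
        linarith
    _ = (1 / 4 + 2 / (q - 1)) * ∑ k ∈ Finset.range m, Real.exp (n k * -δ) := by
        rw [Finset.mul_sum]
    _ ≤ _ := mul_le_mul_of_nonneg_left hs (by positivity)

end Pool.Agent.R302.SA
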