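import Pool.Agent.R302.SA.G1

set_option autoImplicit false

/-! # Gap series: the limit, and the Gaussian average -/

namespace Pool.Agent.R302.SA

open Complex Metric Set Filter Topology MeasureTheory
open Pool.Agent.W677.Mar Pool.Agent.R250.MC

variable {q A : ℝ} {n : ℕ → ℕ}

theorem pt_mem {r θ : ℝ} (hr0 : 0 < r) (hr1 : r < 1) : pt r θ ∈ ball (0 : ℂ) 1 := by
  rw [mem_ball_zero_iff, norm_pt r θ hr0.le]
  exact hr1

/-- moments of the full series -/
theorem moments_gap (hq : 1 < q) (hn : Gaps q n) {a : ℕ → ℂ} (ha : ∀ k, ‖a k‖ ≤ A) {H : ℂ → ℂ}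
    (hH : DifferentiableOn ℂ H (ball 0 1))
    (hs : ∀ v ∈ ball (0 : ℂ) 1, HasSum (fun k => a k * v ^ n k) (H v)) (t : ℂ)
    {r B : ℝ} (hr0 : 0 < r) (hr1 : r < 1) (hB : ∀ m, Q0 A q n m (Real.log r) ≤ B) :
    ∫ θ in (0 : ℝ)..(2 * Real.pi), Real.exp ((starRingEnd ℂ) t * H (pt r θ)).re ≤
      2 * Real.pi * Real.exp (‖t‖ ^ 2 * B) := by
  have hpi := Real.pi_pos
  have hrs : Summable fun k => ‖a k‖ * r ^ n k := by
    have h1 := (hs (r : ℂ) (by
      rw [mem_ball_zero_iff, Complex.norm_real, Real.norm_of_nonneg hr0.le]; exact hr1)).summable.norm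
    refine h1.congr fun k => ?_
    rw [norm_mul, norm_pow, Complex.norm_real, Real.norm_of_nonneg hr0.le]
  obtain ⟨T, hT⟩ : ∃ T, T = ∑' k, ‖a k‖ * r ^ n k := ⟨_, rfl⟩
  have hHm : ∀ m θ, ‖Hm a n m (pt r θ)‖ ≤ T := by
    intro m θ
    unfold Hm
    refine (norm_sum_le _ _).trans ?_
    rw [hT]
    refine le_trans (le_of_eq ?_) (hrs.sum_le_tsum (Finset.range m) (fun k _ => by positivity))
    apply Finset.sum_congr rfl
    intro k _
    rw [norm_mul, norm_pow, norm_pt r θ hr0.le]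
  have hlim : Tendsto (fun m => ∫ θ in (0 : ℝ)..(2 * Real.pi),
      Real.exp ((starRingEnd ℂ) t * Hm a n m (pt r θ)).re) atTop
      (𝓝 (∫ θ in (0 : ℝ)..(2 * Real.pi), Real.exp ((starRingEnd ℂ) t * H (pt r θ)).re)) := by
    apply intervalIntegral.tendsto_integral_filter_of_dominated_convergence
      (fun _ => Real.exp (‖t‖ * T))
    · refine Filter.Eventually.of_forall fun m => ?_
      apply Continuous.aestronglyMeasurable
      have hc : Continuous (Hm a n m) := by
        unfold Hm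
        fun_prop
      have hp : Continuous fun θ => pt r θ := by
        unfold pt
        exact (continuous_circleMap 0 r)
      exact Real.continuous_exp.comp (continuous_re.comp (continuous_const.mul (hc.comp hp)))
    · refine Filter.Eventually.of_forall fun m => Filter.Eventually.of_forall fun θ _ => ?_
      rw [Real.norm_of_nonneg (Real.exp_pos _).le]
      apply Real.exp_le_exp.2
      refine (re_le_norm _).trans ?_
      rw [norm_mul, RCLike.norm_conj]
      exact mul_le_mul_of_nonneg_left (hHm m θ) (norm_nonneg _)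
    · exact intervalIntegrable_const
    · refine Filter.Eventually.of_forall fun θ _ => ?_
      have h1 := (hs (pt r θ) (pt_mem hr0 hr1)).tendsto_sum_nat
      have h2 : Continuous fun w : ℂ => Real.exp ((starRingEnd ℂ) t * w).re := by fun_prop
      exact (h2.tendsto _).comp h1
  refine le_of_tendsto' hlim fun m => ?_
  refine (moments_Hm hq hn ha m t hr0 hr1).trans ?_
  apply mul_le_mul_of_nonneg_left _ (by positivity)
  apply Real.exp_le_exp.2
  exact mul_le_mul_of_nonneg_left (hB m) (by positivity)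

/-- Gaussian averages -/
theorem square_of_moments {h : ℂ → ℂ} (hH : Hol h 0) {R a m : ℝ} (hR : 1 < R) (ha : 0 < a)
    (hmom : ∀ t : ℂ, ∫ θ in (0 : ℝ)..(2 * Real.pi),
      Real.exp ((starRingEnd ℂ) t * hat h 0 (pt R⁻¹ θ)).re ≤ 2 * Real.pi * Real.exp (‖t‖ ^ 2 * m))
    (ham : 4 * a * m < Real.log (R ^ 2 / (R ^ 2 - 1))) :
    (1 / (2 * Real.pi)) * ∫ θ in (0 : ℝ)..(2 * Real.pi),
        Real.exp (a * ‖h ((R : ℂ) * Complex.exp ((θ : ℂ) * Complex.I))‖ ^ 2
          / Real.log (R ^ 2 / (R ^ 2 - 1))) ≤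
      1 / (1 - 4 * a * m / Real.log (R ^ 2 / (R ^ 2 - 1))) := by
  have hpi := Real.pi_pos
  have hR0 : 0 < R := by linarith
  have hL := L_pos hR
  obtain ⟨L, hLd⟩ : ∃ L, L = Real.log (R ^ 2 / (R ^ 2 - 1)) := ⟨_, rfl⟩
  rw [← hLd] at hL ham ⊢
  obtain ⟨b, hb⟩ : ∃ b, b = L / (4 * a) := ⟨_, rfl⟩
  have hb0 : 0 < b := by rw [hb]; positivity
  have hbm : m < b := by
    rw [hb, lt_div_iff₀ (by positivity)]
    linarith
  set g : ℝ → ℂ := fun θ => h ((R : ℂ) * Complex.exp ((θ : ℂ) * Complex.I)) with hg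
  have hmem : ∀ θ : ℝ, 1 < ‖(R : ℂ) * Complex.exp ((θ : ℂ) * Complex.I)‖ := by
    intro θ
    rw [norm_mul, Complex.norm_exp_ofReal_mul_I, Complex.norm_real, Real.norm_of_nonneg hR0.le,
      mul_one]
    exact hR
  have hgc : Continuous g := by
    apply hH.1.continuousOn.comp_continuous (by fun_prop) hmem
  have hcomp : IsCompact (sphere (0 : ℂ) R) := isCompact_sphere _ _
  obtain ⟨M, hM⟩ := hcomp.exists_bound_of_continuousOn (f := h) (hH.1.continuousOn.mono (by
    intro z hz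
    rw [mem_sphere_zero_iff_norm] at hz
    show 1 < ‖z‖
    rw [hz]
    exact hR))
  have hgM : ∀ θ, ‖g θ‖ ≤ M := by
    intro θ
    apply hM
    rw [mem_sphere_zero_iff_norm, norm_mul, Complex.norm_exp_ofReal_mul_I, Complex.norm_real,
      Real.norm_of_nonneg hR0.le, mul_one]
  have hB : ∀ t : ℂ, ∫ θ in (0 : ℝ)..(2 * Real.pi), Real.exp ((starRingEnd ℂ) t * g θ).re ≤
      2 * Real.pi * Real.exp (‖t‖ ^ 2 * m) := by
    intro t
    exact (circ_int h hR (fun w => Real.exp ((starRingEnd ℂ) t * w).re)).trans_le (hmom t)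
  have hbm0 : 0 < b - m := by linarith
  obtain ⟨g1, g2⟩ := gauss0 hbm0
  have e1 : (fun t : ℂ => Real.exp (-b * ‖t‖ ^ 2) * (2 * Real.pi * Real.exp (‖t‖ ^ 2 * m))) =
      fun t : ℂ => 2 * Real.pi * Real.exp (-(b - m) * ‖t‖ ^ 2) := by
    funext t
    have : Real.exp (-(b - m) * ‖t‖ ^ 2) = Real.exp (-b * ‖t‖ ^ 2) * Real.exp (‖t‖ ^ 2 * m) := by
      rw [← Real.exp_add]
      congr 1
      ring
    rw [this]
    ring
  have h1 := gauss_avg hgc hgM hb0 hB (by rw [e1]; exact g1.const_mul _)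
  rw [e1, integral_const_mul, g2] at h1
  have e2 : ∀ θ, Real.exp (a * ‖g θ‖ ^ 2 / L) = Real.exp (‖g θ‖ ^ 2 / (4 * b)) := by
    intro θ
    congr 1
    rw [hb]
    field_simp
  simp only [hg] at e2 h1
  simp only [e2]
  calc (1 / (2 * Real.pi)) * ∫ θ in (0 : ℝ)..(2 * Real.pi),
        Real.exp (‖h ((R : ℂ) * Complex.exp ((θ : ℂ) * Complex.I))‖ ^ 2 / (4 * b))
      ≤ (1 / (2 * Real.pi)) * (b / Real.pi * (2 * Real.pi * (Real.pi / (b - m)))) :=
        mul_le_mul_of_nonneg_left h1 (by positivity)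
    _ = b / (b - m) := by field_simp
    _ = 1 / (1 - 4 * a * m / L) := by
        have h2 : b - m = b * (1 - 4 * a * m / L) := by
          rw [hb]
          field_simp
        have h3 : 0 < 1 - 4 * a * m / L := by
          have : 4 * a * m / L < 1 := by rw [div_lt_one hL]; exact ham
          linarith
        rw [h2]
        field_simp

/-- **Gap series with bounded coefficients.** -/
theorem marshall_gap {a q A : ℝ} (ha : 0 < a) (hq : 1 < q)
    (haq : a * (A ^ 2 * (1 + 8 / (q - 1))) < Real.log q) :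
    ∃ C : ℝ, ∀ (R : ℝ) (Y h : ℂ → ℂ) (c : ℕ → ℂ) (n : ℕ → ℕ), 1 < R → R < 2 → Hol h 0 →
      Sg Y (hat h 0) → Gaps q n → (∀ k, ‖c k‖ ≤ A) →
      (∀ v ∈ ball (0 : ℂ) 1, HasSum (fun k => c k * v ^ n k) (hat h 0 v)) →
      (1 / (2 * Real.pi)) * ∫ θ in (0 : ℝ)..(2 * Real.pi),
        Real.exp (a * ‖h ((R : ℂ) * Complex.exp ((θ : ℂ) * Complex.I))‖ ^ 2
          / Real.log (R ^ 2 / (R ^ 2 - 1))) ≤ C := by
  have hq0 : 0 < q - 1 := by linarith
  have hlq : 0 < Real.log q := Real.log_pos hq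
  obtain ⟨B, hB⟩ : ∃ B, B = A ^ 2 * (1 + 8 / (q - 1)) := ⟨_, rfl⟩
  have hB0 : 0 ≤ B := by rw [hB]; positivity
  rw [← hB] at haq
  obtain ⟨δ, hδ⟩ : ∃ δ, δ = 1 - a * B / Real.log q := ⟨_, rfl⟩
  have hδ0 : 0 < δ := by
    have : a * B / Real.log q < 1 := by rw [div_lt_one hlq]; exact haq
    rw [hδ]; linarith
  obtain ⟨D, hD⟩ : ∃ D, D = a * B * (2 / Real.log q + 1 + q / (q - 1)) := ⟨_, rfl⟩
  obtain ⟨Λ, hΛ⟩ : ∃ Λ, Λ = 2 * D / δ := ⟨_, rfl⟩
  refine ⟨max (2 / δ) (Real.exp (a * Λ)), ?_⟩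
  intro R Y h c n hR hR2 hH S hn hc hs
  have hL := L_pos hR
  have hR0 : 0 < R := by linarith
  rcases lt_or_ge Λ (Real.log (R ^ 2 / (R ^ 2 - 1))) with h1 | h1
  swap
  · exact (marshall_small ha hR hH S h1).trans (le_max_right _ _)
  apply le_trans _ (le_max_left _ _)
  obtain ⟨L, hLd⟩ : ∃ L, L = Real.log (R ^ 2 / (R ^ 2 - 1)) := ⟨_, rfl⟩
  obtain ⟨d, hd⟩ : ∃ d, d = Real.log R := ⟨_, rfl⟩
  have hd0 : 0 < d := by rw [hd]; exact Real.log_pos hR
  have hd1 : d ≤ 1 := by
    rw [hd]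
    have h2 := Real.log_le_log hR0 hR2.le
    have h3 := Real.log_two_lt_d9
    linarith
  have hlogd : Real.log (1 / d) ≤ L + 2 := by
    have h2 : 0 < R - 1 := by linarith
    have h3 : 0 < R ^ 2 - 1 := by nlinarith
    have h5 : (R - 1) / 2 ≤ d := by
      have h6 := Real.one_sub_inv_le_log_of_pos hR0
      rw [← hd] at h6
      have h7 : (R - 1) / 2 ≤ 1 - R⁻¹ := by
        have h8 : 1 - R⁻¹ = (R - 1) / R := by field_simp
        rw [h8]
        apply div_le_div_of_nonneg_left h2.le hR0 hR2.le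
      linarith
    have h4 : 1 / d ≤ 4 * (R ^ 2 / (R ^ 2 - 1)) := by
      calc 1 / d ≤ 1 / ((R - 1) / 2) := one_div_le_one_div_of_le (by positivity) h5
        _ = 2 / (R - 1) := by field_simp
        _ ≤ 4 * (R ^ 2 / (R ^ 2 - 1)) := by
            rw [← mul_div_assoc, div_le_div_iff₀ h2 h3]
            have h7 : R + 1 ≤ 2 * R ^ 2 := by nlinarith
            have h8 := mul_le_mul_of_nonneg_right h7 h2.le
            nlinarith
    have h6 := Real.log_le_log (by positivity) h4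
    rw [Real.log_mul (by norm_num) (by positivity), ← hLd] at h6
    have h7 : Real.log 4 ≤ 2 := by
      have : (4 : ℝ) = 2 * 2 := by norm_num
      rw [this, Real.log_mul (by norm_num) (by norm_num)]
      have := Real.log_two_lt_d9
      linarith
    linarith
  obtain ⟨m, hm⟩ : ∃ m, m = A ^ 2 * (1 / 4 + 2 / (q - 1)) *
      (Real.log (1 / d) / Real.log q + 1 + q / (q - 1)) := ⟨_, rfl⟩
  have hL0 : 0 < L := by rw [hLd]; exact hL
  have h4m : 4 * a * m ≤ a * B / Real.log q * L + D := by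
    have e1 : 4 * a * m = a * B * (Real.log (1 / d) / Real.log q + 1 + q / (q - 1)) := by
      rw [hm, hB]; ring
    have e2 : Real.log (1 / d) / Real.log q ≤ (L + 2) / Real.log q :=
      div_le_div_of_nonneg_right hlogd hlq.le
    have e3 : 0 ≤ a * B := by positivity
    rw [e1, hD]
    have e4 := mul_le_mul_of_nonneg_left e2 e3
    have e5 : a * B * ((L + 2) / Real.log q) = a * B / Real.log q * L + a * B * (2 / Real.log q) := by
      field_simp
    rw [e5] at e4
    nlinarith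
  have hDL : D ≤ δ / 2 * L := by
    rw [← hLd, hΛ, div_lt_iff₀ hδ0] at h1
    linarith
  have h4mL : 4 * a * m ≤ (1 - δ / 2) * L := by
    have : a * B / Real.log q = 1 - δ := by rw [hδ]; ring
    rw [this] at h4m
    linarith
  have hlt : 4 * a * m < Real.log (R ^ 2 / (R ^ 2 - 1)) := by
    rw [← hLd]
    have := mul_pos hδ0 hL0
    linarith
  refine (square_of_moments hH hR ha (m := m) (fun t => ?_) hlt).trans ?_
  · apply moments_gap hq hn hc (hat_diff hH) hs t (by positivity) (inv_lt_one_of_one_lt₀ hR)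
    intro k
    rw [Real.log_inv, ← hd, hm]
    exact Q0_le hq hn k hd0 hd1
  · rw [← hLd]
    have h5 : 4 * a * m / L ≤ 1 - δ / 2 := by
      rw [div_le_iff₀ hL0]
      exact h4mL
    rw [div_le_div_iff₀ (by linarith) hδ0]
    linarith

end Pool.Agent.R302.SA
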