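import Pool.Agent.R302.SA.G2

set_option autoImplicit false

/-! # Coefficients of `log ψ'` -/

namespace Pool.Agent.R302.SA

open Complex Metric Set Filter Topology MeasureTheory
open Pool.Agent.W677.Mar Pool.Agent.R250.MC

/-- `e^{-i N θ}` -/
noncomputable def en (N : ℕ) (θ : ℝ) : ℂ := Complex.exp (-(N : ℂ) * I * θ)

theorem en_cont (N : ℕ) : Continuous (en N) := by
  unfold en
  fun_prop

theorem en_norm (N : ℕ) (θ : ℝ) : ‖en N θ‖ = 1 := by
  unfold en
  rw [Complex.norm_exp]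
  simp

theorem en_two_pi (N : ℕ) : en N (2 * Real.pi) = 1 := by
  unfold en
  have h := Complex.exp_int_mul_two_pi_mul_I (-(N : ℤ))
  rw [← h]
  congr 1
  push_cast
  ring

theorem en_zero (N : ℕ) : en N 0 = 1 := by
  unfold en
  simp

theorem en_d (N : ℕ) (θ : ℝ) : HasDerivAt (en N) (-(N : ℂ) * I * en N θ) θ := by
  unfold en
  have h1 : HasDerivAt (fun θ : ℝ => -(N : ℂ) * I * (θ : ℂ)) (-(N : ℂ) * I) θ := by
    have := (Complex.ofRealCLM.hasDerivAt (x := θ)).const_mul (-(N : ℂ) * I)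
    simpa using this
  have h2 := h1.cexp
  refine h2.congr_deriv ?_
  ring

theorem int_exp {m : ℤ} (hm : m ≠ 0) : ∫ θ in (0 : ℝ)..(2 * Real.pi), Complex.exp (m * I * θ) = 0 := by
  have h0 : (m : ℂ) * I ≠ 0 := mul_ne_zero (by exact_mod_cast hm) I_ne_zero
  rw [integral_exp_mul_complex h0]
  have h := Complex.exp_int_mul_two_pi_mul_I m
  have e : (m : ℂ) * I * ((2 * Real.pi : ℝ) : ℂ) = m * (2 * Real.pi * I) := by push_cast; ring
  rw [e, h]
  simp

theorem int_en {N : ℕ} (hN : 1 ≤ N) : ∫ θ in (0 : ℝ)..(2 * Real.pi), en N θ = 0 := by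
  have h := int_exp (m := -(N : ℤ)) (by omega)
  rw [← h]
  unfold en
  congr 1
  funext θ
  push_cast
  ring_nf

theorem pt_d (r θ : ℝ) : HasDerivAt (fun θ => pt r θ) (pt r θ * I) θ := by
  unfold pt
  have := hasDerivAt_circleMap 0 r θ
  refine this.congr_deriv ?_
  simp

/-- The Fourier coefficients of the series. -/
theorem fourier {a : ℕ → ℂ} {n : ℕ → ℕ} (hn : Function.Injective n) {H : ℂ → ℂ}
    (hs : ∀ v ∈ ball (0 : ℂ) 1, HasSum (fun k => a k * v ^ n k) (H v)) (k : ℕ) {ρ : ℝ} (h0 : 0 < ρ)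
    (h1 : ρ < 1) : ∫ θ in (0 : ℝ)..(2 * Real.pi), H (pt ρ θ) * en (n k) θ =
      2 * Real.pi * (a k * ρ ^ n k) := by
  have hrs : Summable fun k => ‖a k‖ * ρ ^ n k := by
    have h2 := (hs (ρ : ℂ) (by
      rw [mem_ball_zero_iff, Complex.norm_real, Real.norm_of_nonneg h0.le]; exact h1)).summable.norm
    refine h2.congr fun k => ?_
    rw [norm_mul, norm_pow, Complex.norm_real, Real.norm_of_nonneg h0.le]
  have hsum := intervalIntegral.hasSum_integral_of_dominated_convergence (a := 0) (b := 2 * Real.pi)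
    (μ := volume) (F := fun j θ => a j * pt ρ θ ^ n j * en (n k) θ)
    (f := fun θ => H (pt ρ θ) * en (n k) θ) (fun j _ => ‖a j‖ * ρ ^ n j)
    (fun j => by
      apply Continuous.aestronglyMeasurable
      have hp : Continuous fun θ => pt ρ θ := by
        unfold pt
        exact (continuous_circleMap 0 ρ)
      exact (continuous_const.mul (hp.pow _)).mul (en_cont _))
    (fun j => Filter.Eventually.of_forall fun θ _ => by
      rw [norm_mul, norm_mul, norm_pow, norm_pt ρ θ h0.le, en_norm, mul_one])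
    (Filter.Eventually.of_forall fun θ _ => hrs)
    intervalIntegrable_const
    (Filter.Eventually.of_forall fun θ _ => (hs (pt ρ θ) (pt_mem h0 h1)).mul_right _)
  have hterm : ∀ j, ∫ θ in (0 : ℝ)..(2 * Real.pi), a j * pt ρ θ ^ n j * en (n k) θ =
      if j = k then 2 * Real.pi * (a k * ρ ^ n k) else 0 := by
    intro j
    have e1 : ∀ θ : ℝ, a j * pt ρ θ ^ n j * en (n k) θ =
        a j * ρ ^ n j * Complex.exp ((((n j : ℤ) - n k : ℤ) : ℂ) * I * θ) := by
      intro θ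
      have e2 : pt ρ θ = ρ * Complex.exp (θ * I) := by
        simp only [pt, circleMap, zero_add]
      have e3 : Complex.exp ((((n j : ℤ) - n k : ℤ) : ℂ) * I * θ) =
          Complex.exp (n j * (θ * I)) * Complex.exp (-(n k : ℂ) * I * θ) := by
        rw [← Complex.exp_add]
        congr 1
        push_cast
        ring
      rw [e2, mul_pow, ← Complex.exp_nat_mul, e3]
      unfold en
      ring
    simp only [e1]
    rw [intervalIntegral.integral_const_mul]
    split_ifs with hjk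
    · subst hjk
      simp
      ring
    · have h3 : (n j : ℤ) - n k ≠ 0 := by
        intro h
        apply hjk
        apply hn
        omega
      rw [int_exp h3, mul_zero]
  simp only [hterm] at hsum
  have h4 := hasSum_ite_eq k (2 * Real.pi * (a k * ρ ^ n k) : ℂ)
  exact hsum.unique h4

/-- Integration by parts. -/
theorem parts {H : ℂ → ℂ} (hH : DifferentiableOn ℂ H (ball 0 1)) {N : ℕ} (hN : 1 ≤ N) {ρ : ℝ}
    (h0 : 0 < ρ) (h1 : ρ < 1) :
    (N : ℂ) * ∫ θ in (0 : ℝ)..(2 * Real.pi), H (pt ρ θ) * en N θ =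
      ∫ θ in (0 : ℝ)..(2 * Real.pi), (pt ρ θ * deriv H (pt ρ θ)) * en N θ := by
  have hN0 : (N : ℂ) ≠ 0 := by exact_mod_cast (by omega : N ≠ 0)
  have hc : Continuous fun θ => pt ρ θ := by
    unfold pt
    exact (continuous_circleMap 0 ρ)
  have hd : Continuous fun θ => deriv H (pt ρ θ) :=
    (hH.deriv isOpen_ball).continuousOn.comp_continuous hc (fun θ => pt_mem h0 h1)
  have hu : ∀ θ : ℝ, HasDerivAt (fun θ => H (pt ρ θ)) (deriv H (pt ρ θ) * (pt ρ θ * I)) θ := by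
    intro θ
    exact HasDerivAt.comp_of_eq θ ((hH.differentiableAt (isOpen_ball.mem_nhds
      (pt_mem h0 h1))).hasDerivAt) (pt_d ρ θ) rfl
  have hw : ∀ θ : ℝ, HasDerivAt (fun θ => (-(N : ℂ) * I)⁻¹ * en N θ) (en N θ) θ := by
    intro θ
    have h2 := (en_d N θ).const_mul ((-(N : ℂ) * I)⁻¹)
    refine h2.congr_deriv ?_
    rw [← mul_assoc, inv_mul_cancel₀ (mul_ne_zero (neg_ne_zero.2 hN0) I_ne_zero), one_mul]
  have hp := intervalIntegral.integral_mul_deriv_eq_deriv_mul (a := 0) (b := 2 * Real.pi)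
    (u := fun θ => H (pt ρ θ)) (v := fun θ => (-(N : ℂ) * I)⁻¹ * en N θ)
    (u' := fun θ => deriv H (pt ρ θ) * (pt ρ θ * I)) (v' := fun θ => en N θ)
    (fun θ _ => hu θ) (fun θ _ => hw θ)
    ((hd.mul (hc.mul continuous_const)).intervalIntegrable _ _)
    ((en_cont N).intervalIntegrable _ _)
  have hper : pt ρ (2 * Real.pi) = pt ρ 0 := by
    have := pt_periodic ρ 0
    rwa [zero_add] at this
  simp only [hper, en_two_pi, en_zero, sub_self, zero_sub] at hp
  rw [hp, ← intervalIntegral.integral_neg, ← intervalIntegral.integral_const_mul]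
  congr 1
  funext θ
  have hI : (I : ℂ) ≠ 0 := I_ne_zero
  field_simp

/-- **The coefficients are at most `4 e`.** -/
theorem coeff_le {Y H : ℂ → ℂ} (S : Sg Y H) {a : ℕ → ℂ} {n : ℕ → ℕ} (hn : Function.Injective n)
    (hs : ∀ v ∈ ball (0 : ℂ) 1, HasSum (fun k => a k * v ^ n k) (H v)) (k : ℕ) (hk : 1 ≤ n k) :
    ‖a k‖ ≤ 4 * Real.exp 1 := by
  obtain ⟨N, hN⟩ : ∃ N, N = n k := ⟨_, rfl⟩
  have hN1 : 1 ≤ N := hN ▸ hk
  have hN0 : (0 : ℝ) < N := by exact_mod_cast hN1
  have hpi := Real.pi_pos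
  obtain ⟨X, hX⟩ : ∃ X : ℝ, X = N / (N + 1) := ⟨_, rfl⟩
  have hX0 : 0 < X := by rw [hX]; positivity
  have hX1 : X < 1 := by rw [hX, div_lt_one (by positivity)]; linarith
  obtain ⟨ρ, hρ⟩ : ∃ ρ, ρ = Real.sqrt X := ⟨_, rfl⟩
  have hρ0 : 0 < ρ := by rw [hρ]; exact Real.sqrt_pos.2 hX0
  have hρX : ρ ^ 2 = X := by rw [hρ]; exact Real.sq_sqrt hX0.le
  have hρ1 : ρ < 1 := by nlinarith
  have hc : Continuous fun θ => pt ρ θ := by
    unfold pt
    exact (continuous_circleMap 0 ρ)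
  have hd : Continuous fun θ => deriv H (pt ρ θ) :=
    (S.dH.deriv isOpen_ball).continuousOn.comp_continuous hc (fun θ => pt_mem hρ0 hρ1)
  have h1 := parts S.dH hN1 hρ0 hρ1
  have h2 := fourier hn hs k hρ0 hρ1
  rw [← hN] at h2
  rw [h2] at h1
  have h3 : ((1 - ρ ^ 2 : ℝ) : ℂ) * ((N : ℂ) * (2 * Real.pi * (a k * ρ ^ N))) =
      ∫ θ in (0 : ℝ)..(2 * Real.pi), (((1 - ρ ^ 2 : ℝ) : ℂ) * (pt ρ θ * deriv H (pt ρ θ)) -
        2 * (ρ : ℂ) ^ 2) * en N θ := by
    rw [h1, ← intervalIntegral.integral_const_mul]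
    have e1 : ∀ θ : ℝ, (((1 - ρ ^ 2 : ℝ) : ℂ) * (pt ρ θ * deriv H (pt ρ θ)) -
        2 * (ρ : ℂ) ^ 2) * en N θ = ((1 - ρ ^ 2 : ℝ) : ℂ) * ((pt ρ θ * deriv H (pt ρ θ)) * en N θ) -
        2 * (ρ : ℂ) ^ 2 * en N θ := by
      intro θ; ring
    simp only [e1]
    rw [intervalIntegral.integral_sub, intervalIntegral.integral_const_mul (2 * (ρ : ℂ) ^ 2),
      int_en hN1, mul_zero, sub_zero]
    · exact (continuous_const.mul ((hc.mul hd).mul (en_cont N))).intervalIntegrable _ _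
    · exact (continuous_const.mul (en_cont N)).intervalIntegrable _ _
  have h4 : ‖((1 - ρ ^ 2 : ℝ) : ℂ) * ((N : ℂ) * (2 * Real.pi * (a k * ρ ^ N)))‖ ≤
      4 * ρ * (2 * Real.pi) := by
    rw [h3]
    have h5 := intervalIntegral.norm_integral_le_of_norm_le_const (a := 0) (b := 2 * Real.pi)
      (f := fun θ => (((1 - ρ ^ 2 : ℝ) : ℂ) * (pt ρ θ * deriv H (pt ρ θ)) -
        2 * (ρ : ℂ) ^ 2) * en N θ) (C := 4 * ρ) (fun θ _ => by
        rw [norm_mul, en_norm, mul_one]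
        have h6 := kbound S (pt_mem (θ := θ) hρ0 hρ1)
        rw [norm_pt ρ θ hρ0.le] at h6
        exact h6)
    rwa [sub_zero, abs_of_pos (by positivity)] at h5
  have h5 : (1 - X) * (N * (‖a k‖ * ρ ^ N)) ≤ 4 * ρ := by
    have e1 : ‖((1 - ρ ^ 2 : ℝ) : ℂ) * ((N : ℂ) * (2 * Real.pi * (a k * ρ ^ N)))‖ =
        ((1 - X) * (N * (‖a k‖ * ρ ^ N))) * (2 * Real.pi) := by
      rw [norm_mul, norm_mul, norm_mul, norm_mul, norm_mul, norm_pow, Complex.norm_real,
        Complex.norm_real, Complex.norm_real, Complex.norm_natCast, Real.norm_of_nonneg hρ0.le,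
        Real.norm_of_nonneg (by rw [hρX]; linarith), Real.norm_of_nonneg hpi.le,
        Complex.norm_ofNat, hρX]
      ring
    rw [e1] at h4
    exact le_of_mul_le_mul_right h4 (by positivity)
  have hNX : (N : ℝ) * (1 - X) = X := by
    rw [hX]; field_simp; ring
  have h6 : ‖a k‖ * (X * ρ ^ N) ≤ 4 * ρ := by
    have : (1 - X) * (N * (‖a k‖ * ρ ^ N)) = ‖a k‖ * ((N * (1 - X)) * ρ ^ N) := by ring
    rw [this, hNX] at h5
    exact h5
  have h7 : ‖a k‖ * ρ ^ (N + 1) ≤ 4 := by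
    have e1 : ‖a k‖ * (X * ρ ^ N) = (‖a k‖ * ρ ^ (N + 1)) * ρ := by
      rw [← hρX]; ring
    rw [e1] at h6
    exact le_of_mul_le_mul_right h6 hρ0
  -- `ρ ^ (N + 1) ≥ e⁻¹`
  have h8 : Real.exp (-1) ≤ ρ ^ (N + 1) := by
    have h9 : Real.exp (-2) ≤ (ρ ^ (N + 1)) ^ 2 := by
      have e1 : (ρ ^ (N + 1)) ^ 2 = X ^ (N + 1) := by rw [← pow_mul, mul_comm, pow_mul, hρX]
      rw [e1]
      have h10 : Real.exp (-(1 / N)) ≤ X := by
        rw [Real.exp_neg, hX]
        rw [inv_le_comm₀ (Real.exp_pos _) (by positivity)]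
        have h11 := Real.add_one_le_exp (1 / (N : ℝ))
        have e2 : ((N : ℝ) / (N + 1))⁻¹ = 1 / N + 1 := by
          field_simp
          ring
        rw [e2]
        exact h11
      calc Real.exp (-2) ≤ Real.exp (-(1 / N)) ^ (N + 1) := by
            rw [← Real.exp_nat_mul]
            apply Real.exp_le_exp.2
            push_cast
            have h12 : (1 : ℝ) / N ≤ 1 := by
              rw [div_le_one hN0]; exact_mod_cast hN1
            have e3 : ((N : ℝ) + 1) * -(1 / N) = -1 - 1 / N := by field_simp; ring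
            rw [e3]
            linarith
        _ ≤ X ^ (N + 1) := pow_le_pow_left₀ (Real.exp_pos _).le h10 _
    have e4 : Real.exp (-2) = Real.exp (-1) ^ 2 := by
      rw [← Real.exp_nat_mul]; norm_num
    rw [e4] at h9
    exact le_of_sq_le_sq h9 (by positivity)
  have h9 : ‖a k‖ * Real.exp (-1) ≤ 4 :=
    (mul_le_mul_of_nonneg_left h8 (norm_nonneg _)).trans h7
  have e5 : ‖a k‖ = ‖a k‖ * Real.exp (-1) * Real.exp 1 := by
    rw [mul_assoc, ← Real.exp_add]; simp
  rw [e5]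
  exact mul_le_mul_of_nonneg_right h9 (Real.exp_pos _).le

end Pool.Agent.R302.SA
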