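import Pool.Agent.R302.SA.M1

set_option autoImplicit false

/-! # Gaussian averages with a radius which depends on the scale -/

namespace Pool.Agent.R302.SA

open Complex Metric Set Filter Topology MeasureTheory
open Pool.Agent.W677.Mar Pool.Agent.R250.MC

/-- Exponential square integrability in the exterior. -/
theorem square_ext {h : ℂ → ℂ} (hH : Hol h 0) {c₀ : ℂ}
    {Φ0 Φ1 Φ2 : ℝ → ℝ} (hΦ0 : ∀ s < 0, HasDerivAt Φ0 (Φ1 s) s)
    (hΦ1 : ∀ s < 0, HasDerivAt Φ1 (Φ2 s) s) (hΦ0n : ∀ s < 0, 0 ≤ Φ0 s) (hΦ1n : ∀ s < 0, 0 ≤ Φ1 s)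
    (hD : DriftG c₀ Φ2 (hat h 0)) {R a m : ℝ} (hR : 1 < R) (ha : 0 < a)
    (hΦm : Φ0 (Real.log R⁻¹) ≤ m) (ham : 4 * a * m < Real.log (R ^ 2 / (R ^ 2 - 1))) :
    (1 / (2 * Real.pi)) * ∫ θ in (0 : ℝ)..(2 * Real.pi),
        Real.exp (a * ‖h ((R : ℂ) * Complex.exp ((θ : ℂ) * Complex.I))‖ ^ 2
          / Real.log (R ^ 2 / (R ^ 2 - 1))) ≤
      1 / (1 - 4 * a * m / Real.log (R ^ 2 / (R ^ 2 - 1))) := by
  have hpi := Real.pi_pos
  have hR0 : 0 < R := by linarith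
  have hL := L_pos hR
  obtain ⟨L, hLd⟩ : ∃ L, L = Real.log (R ^ 2 / (R ^ 2 - 1)) := ⟨_, rfl⟩
  rw [← hLd] at hL ham ⊢
  obtain ⟨b, hb⟩ : ∃ b, b = L / (4 * a) := ⟨_, rfl⟩
  have hb0 : 0 < b := by rw [hb]; positivity
  have hbm : m < b := by
    rw [hb, lt_div_iff₀ (by positivity)]
    linarith
  set g : ℝ → ℂ := fun θ => h ((R : ℂ) * Complex.exp ((θ : ℂ) * Complex.I)) with hg
  have hmem : ∀ θ : ℝ, 1 < ‖(R : ℂ) * Complex.exp ((θ : ℂ) * Complex.I)‖ := by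
    intro θ
    rw [norm_mul, Complex.norm_exp_ofReal_mul_I, Complex.norm_real, Real.norm_of_nonneg hR0.le,
      mul_one]
    exact hR
  have hgc : Continuous g := by
    apply hH.1.continuousOn.comp_continuous (by fun_prop) hmem
  have hcomp : IsCompact (sphere (0 : ℂ) R) := isCompact_sphere _ _
  obtain ⟨M, hM⟩ := hcomp.exists_bound_of_continuousOn (f := h) (hH.1.continuousOn.mono (by
    intro z hz
    rw [mem_sphere_zero_iff_norm] at hz
    show 1 < ‖z‖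
    rw [hz]
    exact hR))
  have hgM : ∀ θ, ‖g θ‖ ≤ M := by
    intro θ
    apply hM
    rw [mem_sphere_zero_iff_norm, norm_mul, Complex.norm_exp_ofReal_mul_I, Complex.norm_real,
      Real.norm_of_nonneg hR0.le, mul_one]
  have hB : ∀ t : ℂ, ∫ θ in (0 : ℝ)..(2 * Real.pi), Real.exp ((starRingEnd ℂ) t * g θ).re ≤
      2 * Real.pi * Real.exp (‖t‖ ^ 2 * m) := by
    intro t
    have h1 := moments (hat_diff hH) (hat_zero h 0) hΦ0 hΦ1 hΦ0n hΦ1n hD t (r := R⁻¹)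
      (by positivity) (inv_lt_one_of_one_lt₀ hR)
    have h2 := (circ_int h hR (fun w => Real.exp ((starRingEnd ℂ) t * w).re)).trans_le h1
    refine h2.trans ?_
    apply mul_le_mul_of_nonneg_left _ (by positivity)
    apply Real.exp_le_exp.2
    exact mul_le_mul_of_nonneg_left hΦm (by positivity)
  have hbm0 : 0 < b - m := by linarith
  obtain ⟨g1, g2⟩ := gauss0 hbm0
  have e1 : (fun t : ℂ => Real.exp (-b * ‖t‖ ^ 2) * (2 * Real.pi * Real.exp (‖t‖ ^ 2 * m))) =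
      fun t : ℂ => 2 * Real.pi * Real.exp (-(b - m) * ‖t‖ ^ 2) := by
    funext t
    have : Real.exp (-(b - m) * ‖t‖ ^ 2) = Real.exp (-b * ‖t‖ ^ 2) * Real.exp (‖t‖ ^ 2 * m) := by
      rw [← Real.exp_add]
      congr 1
      ring
    rw [this]
    ring
  have h1 := gauss_avg hgc hgM hb0 hB (by rw [e1]; exact g1.const_mul _)
  rw [e1, integral_const_mul, g2] at h1
  have e2 : ∀ θ, Real.exp (a * ‖g θ‖ ^ 2 / L) = Real.exp (‖g θ‖ ^ 2 / (4 * b)) := by
    intro θ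
    congr 1
    rw [hb]
    field_simp
  simp only [hg] at e2 h1
  simp only [e2]
  calc (1 / (2 * Real.pi)) * ∫ θ in (0 : ℝ)..(2 * Real.pi),
        Real.exp (‖h ((R : ℂ) * Complex.exp ((θ : ℂ) * Complex.I))‖ ^ 2 / (4 * b))
      ≤ (1 / (2 * Real.pi)) * (b / Real.pi * (2 * Real.pi * (Real.pi / (b - m)))) :=
        mul_le_mul_of_nonneg_left h1 (by positivity)
    _ = b / (b - m) := by field_simp
    _ = 1 / (1 - 4 * a * m / L) := by
        have h2 : b - m = b * (1 - 4 * a * m / L) := by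
          rw [hb]
          field_simp
        have h3 : 0 < 1 - 4 * a * m / L := by
          have : 4 * a * m / L < 1 := by rw [div_lt_one hL]; exact ham
          linarith
        rw [h2]
        field_simp

/-! ### The weight -/

/-- the integrands -/
noncomputable def gk (σ κ : ℝ → ℝ) (w : ℝ) : ℝ := σ w⁻¹ ^ 2 * κ w / (1 - w ^ 2) ^ 2

theorem gk_cont {σ κ : ℝ → ℝ} {M : ℝ} (hσ : ContinuousOn σ (Ioi 1))
    (hM : ∀ r, 1 < r → 0 ≤ σ r ∧ σ r ≤ M) (hκ : Continuous κ) (hκ0 : κ 0 = 0) :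
    ContinuousOn (gk σ κ) (Ico 0 1) := by
  intro w hw
  rcases eq_or_lt_of_le hw.1 with h0 | h0
  · subst h0
    have e0 : gk σ κ 0 = 0 := by simp [gk, hκ0]
    unfold ContinuousWithinAt
    rw [e0]
    have hlim : Tendsto (fun w : ℝ => M ^ 2 * |κ w| / (1 - w ^ 2) ^ 2) (𝓝[Ico 0 1] 0) (𝓝 0) := by
      have h1 : ContinuousAt (fun w : ℝ => M ^ 2 * |κ w| / (1 - w ^ 2) ^ 2) 0 := by
        apply ContinuousAt.div
        · exact (continuous_const.mul hκ.abs).continuousAt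
        · fun_prop
        · norm_num
      have h2 : M ^ 2 * |κ 0| / (1 - (0 : ℝ) ^ 2) ^ 2 = 0 := by simp [hκ0]
      have h3 := h1.tendsto
      rw [h2] at h3
      exact h3.mono_left nhdsWithin_le_nhds
    apply squeeze_zero_norm' _ hlim
    filter_upwards [self_mem_nhdsWithin] with w hw
    rcases eq_or_lt_of_le hw.1 with h1 | h1
    · rw [← h1]
      simp [gk, hκ0]
    · have h2 : 1 < w⁻¹ := (one_lt_inv₀ h1).2 hw.2
      obtain ⟨h3, h4⟩ := hM _ h2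
      rw [gk, Real.norm_eq_abs, abs_div, abs_mul, abs_of_nonneg (sq_nonneg (σ w⁻¹)),
        abs_of_nonneg (a := (1 - w ^ 2) ^ 2) (sq_nonneg (1 - w ^ 2))]
      have h5 : σ w⁻¹ ^ 2 ≤ M ^ 2 := pow_le_pow_left₀ h3 h4 2
      gcongr
  · have hw1 : 1 - w ^ 2 ≠ 0 := by nlinarith [hw.2]
    have h2 : 1 < w⁻¹ := (one_lt_inv₀ h0).2 hw.2
    apply ContinuousAt.continuousWithinAt
    unfold gk
    apply ContinuousAt.div
    · apply ContinuousAt.mul
      · apply ContinuousAt.pow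
        exact ContinuousAt.comp (f := fun w : ℝ => w⁻¹) (g := σ)
          (hσ.continuousAt (isOpen_Ioi.mem_nhds h2)) (continuousAt_inv₀ h0.ne')
      · exact hκ.continuousAt
    · fun_prop
    · exact pow_ne_zero 2 hw1

theorem gk_int {σ κ : ℝ → ℝ} {M : ℝ} (hσ : ContinuousOn σ (Ioi 1))
    (hM : ∀ r, 1 < r → 0 ≤ σ r ∧ σ r ≤ M) (hκ : Continuous κ) (hκ0 : κ 0 = 0) {y : ℝ} (hy0 : 0 ≤ y)
    (hy1 : y < 1) : IntervalIntegrable (gk σ κ) volume 0 y := by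
  apply ContinuousOn.intervalIntegrable
  rw [uIcc_of_le hy0]
  exact (gk_cont hσ hM hκ hκ0).mono (fun w hw => ⟨hw.1, hw.2.trans_lt hy1⟩)

theorem gk_deriv {σ κ : ℝ → ℝ} {M : ℝ} (hσ : ContinuousOn σ (Ioi 1))
    (hM : ∀ r, 1 < r → 0 ≤ σ r ∧ σ r ≤ M) (hκ : Continuous κ) (hκ0 : κ 0 = 0) {y : ℝ} (hy0 : 0 < y)
    (hy1 : y < 1) : HasDerivAt (fun y => ∫ w in (0 : ℝ)..y, gk σ κ w) (gk σ κ y) y := by
  have hc := gk_cont hσ hM hκ hκ0
  have ho : ContinuousOn (gk σ κ) (Ioo 0 1) := hc.mono Ioo_subset_Ico_self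
  exact intervalIntegral.integral_hasDerivAt_right (gk_int hσ hM hκ hκ0 hy0.le hy1)
    (ho.stronglyMeasurableAtFilter isOpen_Ioo y ⟨hy0, hy1⟩)
    (ho.continuousAt (isOpen_Ioo.mem_nhds ⟨hy0, hy1⟩))

theorem nml_le {w : ℝ} (h0 : 0 < w) (h1 : w ≤ 1) : Real.negMulLog w ≤ (1 - w ^ 2) / 2 := by
  obtain ⟨t, ht⟩ : ∃ t, t = -Real.log w := ⟨_, rfl⟩
  have ht0 : 0 ≤ t := by rw [ht]; have := Real.log_nonpos h0.le h1; linarith
  have hw : w = Real.exp (-t) := by rw [ht, neg_neg, Real.exp_log h0]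
  have h2 := Real.self_le_sinh_iff.2 ht0
  rw [Real.sinh_eq] at h2
  have h3 : Real.negMulLog w = w * t := by
    unfold Real.negMulLog
    rw [ht]
    ring
  rw [h3]
  have h4 : w * Real.exp t = 1 := by
    rw [hw, ← Real.exp_add]
    simp
  have h5 := mul_le_mul_of_nonneg_left h2 h0.le
  have h6 : w * ((Real.exp t - Real.exp (-t)) / 2) = (1 - w ^ 2) / 2 := by
    rw [← hw]
    have : w * ((Real.exp t - w) / 2) = (w * Real.exp t - w ^ 2) / 2 := by ring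
    rw [this, h4]
  rw [h6] at h5
  exact h5

end Pool.Agent.R302.SA
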