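import Pool.Agent.R302.SA.M2

set_option autoImplicit false

/-! # The weight of the scale averages -/

namespace Pool.Agent.R302.SA

open Complex Metric Set Filter Topology MeasureTheory
open Pool.Agent.W677.Mar Pool.Agent.R250.MC

noncomputable def F1 (σ : ℝ → ℝ) (y : ℝ) : ℝ := ∫ w in (0 : ℝ)..y, gk σ id w
noncomputable def F2 (σ : ℝ → ℝ) (y : ℝ) : ℝ := ∫ w in (0 : ℝ)..y, gk σ Real.negMulLog w
noncomputable def P0 (σ : ℝ → ℝ) (s : ℝ) : ℝ := F2 σ (Real.exp s) + s * F1 σ (Real.exp s)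
noncomputable def P1 (σ : ℝ → ℝ) (s : ℝ) : ℝ := F1 σ (Real.exp s)
noncomputable def P2 (σ : ℝ → ℝ) (s : ℝ) : ℝ := gk σ id (Real.exp s) * Real.exp s

theorem gk_nml (σ : ℝ → ℝ) (w : ℝ) : gk σ Real.negMulLog w = -Real.log w * gk σ id w := by
  unfold gk Real.negMulLog
  simp only [id]
  ring

theorem gk_id_nonneg (σ : ℝ → ℝ) {w : ℝ} (hw : 0 ≤ w) : 0 ≤ gk σ id w := by
  unfold gk
  simp only [id]
  positivity

variable {σ : ℝ → ℝ} {M : ℝ}

theorem P0_d (hσ : ContinuousOn σ (Ioi 1)) (hM : ∀ r, 1 < r → 0 ≤ σ r ∧ σ r ≤ M) {s : ℝ} (hs : s < 0) :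
    HasDerivAt (P0 σ) (P1 σ s) s := by
  have h0 := Real.exp_pos s
  have h1 : Real.exp s < 1 := Real.exp_lt_one_iff.2 hs
  have d2 := (gk_deriv hσ hM Real.continuous_negMulLog Real.negMulLog_zero h0 h1).comp s
    (Real.hasDerivAt_exp s)
  have d1 := (gk_deriv hσ hM continuous_id rfl h0 h1).comp s (Real.hasDerivAt_exp s)
  have d := d2.add ((hasDerivAt_id s).mul d1)
  refine HasDerivAt.congr_deriv (f := P0 σ) d ?_
  rw [gk_nml, Real.log_exp]
  simp only [id, P1, F1, Function.comp]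
  ring

theorem P1_d (hσ : ContinuousOn σ (Ioi 1)) (hM : ∀ r, 1 < r → 0 ≤ σ r ∧ σ r ≤ M) {s : ℝ} (hs : s < 0) :
    HasDerivAt (P1 σ) (P2 σ s) s := by
  have h0 := Real.exp_pos s
  have h1 : Real.exp s < 1 := Real.exp_lt_one_iff.2 hs
  exact (gk_deriv hσ hM continuous_id rfl h0 h1).comp s (Real.hasDerivAt_exp s)

theorem F1_nonneg {y : ℝ} (hy : 0 ≤ y) : 0 ≤ F1 σ y := by
  apply intervalIntegral.integral_nonneg hy
  intro w hw
  exact gk_id_nonneg σ hw.1

theorem P0_nonneg (hσ : ContinuousOn σ (Ioi 1)) (hM : ∀ r, 1 < r → 0 ≤ σ r ∧ σ r ≤ M) {s : ℝ}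
    (hs : s < 0) : 0 ≤ P0 σ s := by
  have h0 := Real.exp_pos s
  have h1 : Real.exp s < 1 := Real.exp_lt_one_iff.2 hs
  unfold P0 F1 F2
  rw [← intervalIntegral.integral_const_mul, ← intervalIntegral.integral_add
    (gk_int hσ hM Real.continuous_negMulLog Real.negMulLog_zero h0.le h1)
    ((gk_int hσ hM continuous_id rfl h0.le h1).const_mul s)]
  apply intervalIntegral.integral_nonneg h0.le
  intro w hw
  rw [gk_nml]
  rcases eq_or_lt_of_le hw.1 with h2 | h2
  · rw [← h2]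
    simp [gk]
  · have h3 : Real.log w ≤ s := by
      have := Real.log_le_log h2 hw.2
      rwa [Real.log_exp] at this
    have h4 := gk_id_nonneg σ hw.1
    have h5 := mul_nonneg (sub_nonneg.2 h3) h4
    linarith

theorem P0_le (hσ : ContinuousOn σ (Ioi 1)) (hM : ∀ r, 1 < r → 0 ≤ σ r ∧ σ r ≤ M) {R : ℝ}
    (hR : 1 < R) (hR2 : R ≤ 2) :
    P0 σ (Real.log R⁻¹) ≤ M ^ 2 / 3 + 1 / 4 * ∫ r in R..2, σ r ^ 2 / (r - 1) := by
  have hR0 : 0 < R := by linarith
  have hy0 : 0 < R⁻¹ := by positivity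
  have hy1 : R⁻¹ < 1 := inv_lt_one_of_one_lt₀ hR
  have hy2 : 1 / 2 ≤ R⁻¹ := by
    rw [one_div]
    exact inv_anti₀ hR0 hR2
  have hlog : Real.log R⁻¹ ≤ 0 := Real.log_nonpos hy0.le hy1.le
  have h1 : P0 σ (Real.log R⁻¹) ≤ F2 σ R⁻¹ := by
    unfold P0
    rw [Real.exp_log hy0]
    have := mul_nonneg (neg_nonneg.2 hlog) (F1_nonneg (σ := σ) hy0.le)
    linarith
  refine h1.trans ?_
  have hint := gk_int hσ hM Real.continuous_negMulLog Real.negMulLog_zero hy0.le hy1
  have i1 : IntervalIntegrable (gk σ Real.negMulLog) volume 0 (1 / 2) :=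
    hint.mono_set (by rw [uIcc_of_le hy0.le, uIcc_of_le (by norm_num)]; exact Icc_subset_Icc le_rfl hy2)
  have i2 : IntervalIntegrable (gk σ Real.negMulLog) volume (1 / 2) R⁻¹ :=
    hint.mono_set (by rw [uIcc_of_le hy0.le, uIcc_of_le hy2]; exact Icc_subset_Icc (by norm_num) le_rfl)
  unfold F2
  rw [← intervalIntegral.integral_add_adjacent_intervals i1 i2]
  have b1 : ∫ w in (0 : ℝ)..(1 / 2), gk σ Real.negMulLog w ≤ M ^ 2 / 3 := by
    calc ∫ w in (0 : ℝ)..(1 / 2), gk σ Real.negMulLog w ≤ ∫ _w in (0 : ℝ)..(1 / 2), M ^ 2 * (2 / 3) := by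
          apply intervalIntegral.integral_mono_on (by norm_num) i1 intervalIntegrable_const
          intro w hw
          rcases eq_or_lt_of_le hw.1 with h2 | h2
          · rw [← h2]
            simp only [gk, Real.negMulLog_zero, mul_zero, zero_div]
            positivity
          · have hw2 := hw.2
            have hw1 : 1 < w⁻¹ := (one_lt_inv₀ h2).2 (by linarith)
            obtain ⟨h3, h4⟩ := hM _ hw1
            have h5 : σ w⁻¹ ^ 2 ≤ M ^ 2 := pow_le_pow_left₀ h3 h4 2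
            have h6 := nml_le h2 (by linarith)
            have h7 : 0 ≤ Real.negMulLog w := Real.negMulLog_nonneg h2.le (by linarith)
            have h8 : 3 / 4 ≤ 1 - w ^ 2 := by nlinarith
            unfold gk
            rw [div_le_iff₀ (by positivity)]
            calc σ w⁻¹ ^ 2 * Real.negMulLog w ≤ M ^ 2 * ((1 - w ^ 2) / 2) :=
                  mul_le_mul h5 h6 h7 (by positivity)
              _ ≤ M ^ 2 * (2 / 3) * (1 - w ^ 2) ^ 2 := by
                  have : (1 - w ^ 2) / 2 ≤ 2 / 3 * (1 - w ^ 2) ^ 2 := by nlinarith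
                  have := mul_le_mul_of_nonneg_left this (sq_nonneg M)
                  linarith
      _ = M ^ 2 / 3 := by
          rw [intervalIntegral.integral_const, smul_eq_mul]
          ring
  have b2 : ∫ w in (1 / 2 : ℝ)..R⁻¹, gk σ Real.negMulLog w ≤
      1 / 4 * ∫ r in R..2, σ r ^ 2 / (r - 1) := by
    have hsub : ∀ w ∈ Icc (1 / 2 : ℝ) R⁻¹, 0 < w ∧ w < 1 ∧ 1 < w⁻¹ := by
      intro w hw
      have hw0 : 0 < w := by linarith [hw.1]
      have hw1 : w < 1 := hw.2.trans_lt hy1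
      exact ⟨hw0, hw1, (one_lt_inv₀ hw0).2 hw1⟩
    have hcv := intervalIntegral.integral_comp_mul_deriv' (a := (1 / 2 : ℝ)) (b := R⁻¹)
      (f := fun w : ℝ => w⁻¹) (f' := fun w : ℝ => -(w ^ 2)⁻¹) (g := fun r => σ r ^ 2 / (r - 1))
      (by
        intro w hw
        rw [uIcc_of_le hy2] at hw
        exact hasDerivAt_inv (hsub w hw).1.ne')
      (by
        intro w hw
        rw [uIcc_of_le hy2] at hw
        have h2 := (hsub w hw).1
        apply ContinuousAt.continuousWithinAt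
        have h3 : w ^ 2 ≠ 0 := by positivity
        fun_prop (disch := assumption))
      (by
        rintro r ⟨w, hw, rfl⟩
        rw [uIcc_of_le hy2] at hw
        obtain ⟨h2, h3, h4⟩ := hsub w hw
        apply ContinuousAt.continuousWithinAt
        apply ContinuousAt.div
        · exact (hσ.continuousAt (isOpen_Ioi.mem_nhds h4)).pow 2
        · fun_prop
        · have : (1:ℝ) < w⁻¹ := h4
          show w⁻¹ - 1 ≠ 0
          linarith)
    have e1 : ((1 / 2 : ℝ))⁻¹ = 2 := by norm_num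
    simp only [inv_inv, e1, Function.comp] at hcv
    rw [intervalIntegral.integral_symm R 2] at hcv
    have e2 : ∫ r in R..2, σ r ^ 2 / (r - 1) =
        ∫ w in (1 / 2 : ℝ)..R⁻¹, σ w⁻¹ ^ 2 / (w⁻¹ - 1) * (w ^ 2)⁻¹ := by
      have h3 : ∫ w in (1 / 2 : ℝ)..R⁻¹, σ w⁻¹ ^ 2 / (w⁻¹ - 1) * -(w ^ 2)⁻¹ =
          -∫ w in (1 / 2 : ℝ)..R⁻¹, σ w⁻¹ ^ 2 / (w⁻¹ - 1) * (w ^ 2)⁻¹ := by
        rw [← intervalIntegral.integral_neg]
        congr 1
        funext w
        ring
      rw [h3] at hcv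
      linarith
    rw [e2, ← intervalIntegral.integral_const_mul]
    apply intervalIntegral.integral_mono_on hy2 i2
    · apply ContinuousOn.intervalIntegrable
      intro w hw
      rw [uIcc_of_le hy2] at hw
      obtain ⟨h2, h3, h4⟩ := hsub w hw
      apply ContinuousAt.continuousWithinAt
      have h5 : w ^ 2 ≠ 0 := by positivity
      have h6 : w⁻¹ - 1 ≠ 0 := by linarith
      apply ContinuousAt.mul continuousAt_const
      apply ContinuousAt.mul
      · apply ContinuousAt.div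
        · apply ContinuousAt.pow
          exact ContinuousAt.comp (f := fun w : ℝ => w⁻¹) (g := σ)
            (hσ.continuousAt (isOpen_Ioi.mem_nhds h4)) (continuousAt_inv₀ h2.ne')
        · exact (continuousAt_inv₀ h2.ne').sub continuousAt_const
        · exact h6
      · exact ContinuousAt.inv₀ (by fun_prop) h5
    · intro w hw
      obtain ⟨h2, h3, h4⟩ := hsub w hw
      have h5 := nml_le h2 h3.le
      have h6 : 0 < 1 - w ^ 2 := by nlinarith
      have h7 : 0 < 1 - w := by linarith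
      have e3 : σ w⁻¹ ^ 2 / (w⁻¹ - 1) * (w ^ 2)⁻¹ = σ w⁻¹ ^ 2 * (1 / (w * (1 - w))) := by
        have h8 : w⁻¹ - 1 = (1 - w) / w := by field_simp
        rw [h8]
        field_simp
      rw [e3]
      unfold gk
      have h9 : Real.negMulLog w / (1 - w ^ 2) ^ 2 ≤ 1 / 4 * (1 / (w * (1 - w))) := by
        calc Real.negMulLog w / (1 - w ^ 2) ^ 2 ≤ (1 - w ^ 2) / 2 / (1 - w ^ 2) ^ 2 := by gcongr
          _ = 1 / (2 * (1 - w ^ 2)) := by field_simp
          _ ≤ 1 / (4 * (w * (1 - w))) := by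
              apply one_div_le_one_div_of_le (by positivity)
              nlinarith
          _ = _ := by field_simp
      calc σ w⁻¹ ^ 2 * Real.negMulLog w / (1 - w ^ 2) ^ 2 =
            σ w⁻¹ ^ 2 * (Real.negMulLog w / (1 - w ^ 2) ^ 2) := by ring
        _ ≤ σ w⁻¹ ^ 2 * (1 / 4 * (1 / (w * (1 - w)))) := mul_le_mul_of_nonneg_left h9 (sq_nonneg _)
        _ = _ := by ring
  linarith

end Pool.Agent.R302.SA
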