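import Pool.Agent.R302.SA.M3
import Pool.Agent.R250.MC4

set_option autoImplicit false

/-! # The integral of the question for small scale averages -/

namespace Pool.Agent.R302.SA

open Complex Metric Set Filter Topology MeasureTheory
open Pool.Agent.W677.Mar Pool.Agent.R250.MC

theorem marshall_small {a Λ R : ℝ} {Y h : ℂ → ℂ} (ha : 0 < a) (hR : 1 < R) (hH : Hol h 0)
    (S : Sg Y (hat h 0)) (h1 : Real.log (R ^ 2 / (R ^ 2 - 1)) ≤ Λ) :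
      (1 / (2 * Real.pi)) * ∫ θ in (0 : ℝ)..(2 * Real.pi),
        Real.exp (a * ‖h ((R : ℂ) * Complex.exp ((θ : ℂ) * Complex.I))‖ ^ 2
          / Real.log (R ^ 2 / (R ^ 2 - 1))) ≤ Real.exp (a * Λ) := by
  have hpi := Real.pi_pos
  have hR0 : 0 < R := by linarith
  have hL := L_pos hR
  have hb : ∀ θ : ℝ, Real.exp (a * ‖h ((R : ℂ) * Complex.exp ((θ : ℂ) * Complex.I))‖ ^ 2
        / Real.log (R ^ 2 / (R ^ 2 - 1))) ≤ Real.exp (a * Λ) := by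
    intro θ
    apply Real.exp_le_exp.2
    have hz : ‖(R : ℂ) * Complex.exp ((θ : ℂ) * Complex.I)‖ = R := by
      rw [norm_mul, Complex.norm_exp_ofReal_mul_I, Complex.norm_real, Real.norm_of_nonneg hR0.le,
        mul_one]
    have h2 := goluzin_ext S hR hz
    rw [div_le_iff₀ hL]
    have h3 := norm_nonneg (h ((R : ℂ) * Complex.exp ((θ : ℂ) * Complex.I)))
    calc a * ‖h ((R : ℂ) * Complex.exp ((θ : ℂ) * Complex.I))‖ ^ 2
        ≤ a * (Real.log (R ^ 2 / (R ^ 2 - 1))) ^ 2 := by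
          apply mul_le_mul_of_nonneg_left _ ha.le
          exact pow_le_pow_left₀ h3 h2 2
      _ ≤ a * Λ * Real.log (R ^ 2 / (R ^ 2 - 1)) := by
          rw [sq, ← mul_assoc]
          apply mul_le_mul_of_nonneg_right _ hL.le
          exact mul_le_mul_of_nonneg_left h1 ha.le
  have hmem : ∀ θ : ℝ, 1 < ‖(R : ℂ) * Complex.exp ((θ : ℂ) * Complex.I)‖ := by
    intro θ
    rw [norm_mul, Complex.norm_exp_ofReal_mul_I, Complex.norm_real, Real.norm_of_nonneg hR0.le,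
      mul_one]
    exact hR
  have hgc : Continuous fun θ : ℝ => h ((R : ℂ) * Complex.exp ((θ : ℂ) * Complex.I)) := by
    apply hH.1.continuousOn.comp_continuous (by fun_prop) hmem
  have h3 : ∫ θ in (0 : ℝ)..(2 * Real.pi),
      Real.exp (a * ‖h ((R : ℂ) * Complex.exp ((θ : ℂ) * Complex.I))‖ ^ 2
        / Real.log (R ^ 2 / (R ^ 2 - 1))) ≤ ∫ _θ in (0 : ℝ)..(2 * Real.pi), Real.exp (a * Λ) := by
    apply intervalIntegral.integral_mono_on (by positivity)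
    · apply Continuous.intervalIntegrable
      exact ((continuous_const.mul (hgc.norm.pow 2)).div_const _).rexp
    · exact intervalIntegrable_const
    · intro θ _
      exact hb θ
  rw [intervalIntegral.integral_const, smul_eq_mul, sub_zero] at h3
  calc (1 / (2 * Real.pi)) * ∫ θ in (0 : ℝ)..(2 * Real.pi),
      Real.exp (a * ‖h ((R : ℂ) * Complex.exp ((θ : ℂ) * Complex.I))‖ ^ 2
        / Real.log (R ^ 2 / (R ^ 2 - 1)))
      ≤ (1 / (2 * Real.pi)) * (2 * Real.pi * Real.exp (a * Λ)) :=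
        mul_le_mul_of_nonneg_left h3 (by positivity)
    _ = Real.exp (a * Λ) := by field_simp

theorem hatP {h : ℂ → ℂ} (hH : Hol h 0) {v : ℂ} (hv : v ∈ ball (0 : ℂ) 1) (hv0 : v ≠ 0) :
    ((‖v⁻¹‖ ^ 2 - 1 : ℝ) : ℂ) * (v⁻¹ * deriv h v⁻¹) * ((‖v‖ ^ 2 : ℝ) : ℂ)
      = -(((1 - ‖v‖ ^ 2 : ℝ) : ℂ) * (v * deriv (hat h 0) v)) := by
  have h1 := hat_deriv hH hv hv0
  rw [h1]
  have hn : (‖v‖ : ℂ) ≠ 0 := by exact_mod_cast (norm_pos_iff.2 hv0).ne'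
  rw [norm_inv]
  push_cast
  field_simp

/-- the drift condition with the truncated radius -/
theorem driftG_of {Y h : ℂ → ℂ} (hH : Hol h 0) (S : Sg Y (hat h 0)) {c : ℂ} {K : ℝ} (hc : ‖c‖ ≤ K)
    {σ : ℝ → ℝ} (hD : ∀ z : ℂ, 1 < ‖z‖ →
      ‖((‖z‖ ^ 2 - 1 : ℝ) : ℂ) * (z * deriv h z) - c‖ ≤ σ ‖z‖ * ‖z‖) :
    DriftG (-c / 2) (P2 (fun r => min (σ r) (6 + K))) (hat h 0) := by
  intro v hv hv0 P hP
  have hvn : 0 < ‖v‖ := norm_pos_iff.2 hv0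
  have hn : ‖v‖ < 1 := mem_ball_zero_iff.1 hv
  have h1 := hatP hH hv hv0
  rw [← hP] at h1
  have h2 := deriv_bound S hv
  rw [← hP] at h2
  have e0 : P - 2 * (-c / 2) * ((‖v‖ ^ 2 : ℝ) : ℂ) = -((((‖v⁻¹‖ ^ 2 - 1 : ℝ) : ℂ) *
      (v⁻¹ * deriv h v⁻¹) - c) * ((‖v‖ ^ 2 : ℝ) : ℂ)) := by
    rw [sub_mul, h1]
    ring
  have b1 : ‖P - 2 * (-c / 2) * ((‖v‖ ^ 2 : ℝ) : ℂ)‖ ≤ σ ‖v‖⁻¹ * ‖v‖ := by
    rw [e0, norm_neg, norm_mul, Complex.norm_real, Real.norm_of_nonneg (by positivity)]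
    have h4 := hD v⁻¹ (inv_ext hv hv0)
    calc ‖((‖v⁻¹‖ ^ 2 - 1 : ℝ) : ℂ) * (v⁻¹ * deriv h v⁻¹) - c‖ * ‖v‖ ^ 2
        ≤ σ ‖v⁻¹‖ * ‖v⁻¹‖ * ‖v‖ ^ 2 := mul_le_mul_of_nonneg_right h4 (by positivity)
      _ = σ ‖v‖⁻¹ * ‖v‖ := by rw [norm_inv]; field_simp
  have b2 : ‖P - 2 * (-c / 2) * ((‖v‖ ^ 2 : ℝ) : ℂ)‖ ≤ (6 + K) * ‖v‖ := by
    have e1 : P - 2 * (-c / 2) * ((‖v‖ ^ 2 : ℝ) : ℂ) = P + c * ((‖v‖ ^ 2 : ℝ) : ℂ) := by ring
    rw [e1]
    refine (norm_add_le _ _).trans ?_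
    rw [norm_mul, Complex.norm_real, Real.norm_of_nonneg (by positivity)]
    have h5 : ‖c‖ * ‖v‖ ^ 2 ≤ K * ‖v‖ := by
      have h6 : ‖v‖ ^ 2 ≤ ‖v‖ := by nlinarith
      exact mul_le_mul hc h6 (by positivity) ((norm_nonneg c).trans hc)
    linarith
  have b3 : ‖P - 2 * (-c / 2) * ((‖v‖ ^ 2 : ℝ) : ℂ)‖ ≤ min (σ ‖v‖⁻¹) (6 + K) * ‖v‖ := by
    rcases le_total (σ ‖v‖⁻¹) (6 + K) with h | h
    · rw [min_eq_left h]; exact b1
    · rw [min_eq_right h]; exact b2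
  have b4 := pow_le_pow_left₀ (norm_nonneg _) b3 2
  refine b4.trans (le_of_eq ?_)
  unfold P2 gk
  rw [Real.exp_log hvn]
  have h7 : 1 - ‖v‖ ^ 2 ≠ 0 := by nlinarith
  simp only [id]
  field_simp

/-- **Scale averages.** -/
theorem marshall_avg {a σ₀ K : ℝ} (ha : 0 < a) (haσ : a * σ₀ ^ 2 < 1) :
    ∃ C : ℝ, ∀ (R : ℝ) (c : ℂ) (σ : ℝ → ℝ) (Y h : ℂ → ℂ), 1 < R → R < 2 → Hol h 0 →
      Sg Y (hat h 0) → ‖c‖ ≤ K → ContinuousOn σ (Ioi 1) →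
      (∀ z : ℂ, 1 < ‖z‖ → ‖((‖z‖ ^ 2 - 1 : ℝ) : ℂ) * (z * deriv h z) - c‖ ≤ σ ‖z‖ * ‖z‖) →
      ∫ r in R..2, σ r ^ 2 / (r - 1) ≤ σ₀ ^ 2 * Real.log (1 / (R - 1)) + K →
      (1 / (2 * Real.pi)) * ∫ θ in (0 : ℝ)..(2 * Real.pi),
        Real.exp (a * ‖h ((R : ℂ) * Complex.exp ((θ : ℂ) * Complex.I))‖ ^ 2
          / Real.log (R ^ 2 / (R ^ 2 - 1))) ≤ C := by
  rcases lt_or_ge K 0 with hK | hK
  · refine ⟨0, fun R c σ Y h _ _ _ _ hc => ?_⟩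
    have := norm_nonneg c
    linarith
  obtain ⟨M, hM⟩ : ∃ M, M = 6 + K := ⟨_, rfl⟩
  have hM0 : 0 ≤ M := by rw [hM]; linarith
  obtain ⟨δ, hδ⟩ : ∃ δ, δ = 1 - a * σ₀ ^ 2 := ⟨_, rfl⟩
  have hδ0 : 0 < δ := by rw [hδ]; linarith
  obtain ⟨D, hD⟩ : ∃ D, D = a * (4 * M ^ 2 / 3 + σ₀ ^ 2 + K) := ⟨_, rfl⟩
  have hD0 : 0 ≤ D := by rw [hD]; positivity
  obtain ⟨Λ, hΛ⟩ : ∃ Λ, Λ = 2 * D / δ := ⟨_, rfl⟩
  refine ⟨max (2 / δ) (Real.exp (a * Λ)), ?_⟩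
  intro R c σ Y h hR hR2 hH S hc hσ hDr hint
  have hL := L_pos hR
  rcases lt_or_ge Λ (Real.log (R ^ 2 / (R ^ 2 - 1))) with h1 | h1
  swap
  · exact (marshall_small ha hR hH S h1).trans (le_max_right _ _)
  apply le_trans _ (le_max_left _ _)
  have hσ0 : ∀ r, 1 < r → 0 ≤ σ r := by
    intro r hr
    have hr0 : 0 < r := by linarith
    have h2 := hDr (r : ℂ) (by rw [Complex.norm_real, Real.norm_of_nonneg hr0.le]; exact hr)
    rw [Complex.norm_real, Real.norm_of_nonneg hr0.le] at h2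
    by_contra hneg
    push Not at hneg
    have h3 := mul_neg_of_neg_of_pos hneg hr0
    have h4 := norm_nonneg (((r ^ 2 - 1 : ℝ) : ℂ) * (r * deriv h r) - c)
    linarith
  have hσ' : ContinuousOn (fun r => min (σ r) (6 + K)) (Ioi 1) :=
    continuous_min.comp_continuousOn (hσ.prodMk continuousOn_const)
  have hM' : ∀ r, 1 < r → 0 ≤ (fun r => min (σ r) (6 + K)) r ∧ (fun r => min (σ r) (6 + K)) r ≤ M := by
    intro r hr
    refine ⟨le_min (hσ0 r hr) (by linarith), ?_⟩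
    rw [hM]
    exact min_le_right _ _
  have hdr := driftG_of hH S hc hDr
  have hint' : ∫ r in R..2, (fun r => min (σ r) (6 + K)) r ^ 2 / (r - 1) ≤
      ∫ r in R..2, σ r ^ 2 / (r - 1) := by
    have hcont : ∀ τ : ℝ → ℝ, ContinuousOn τ (Ioi 1) →
        IntervalIntegrable (fun r => τ r ^ 2 / (r - 1)) volume R 2 := by
      intro τ hτ
      apply ContinuousOn.intervalIntegrable
      rw [uIcc_of_le hR2.le]
      apply ContinuousOn.div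
      · exact (hτ.mono (fun r hr => lt_of_lt_of_le hR hr.1)).pow 2
      · fun_prop
      · intro r hr
        have : 1 < r := lt_of_lt_of_le hR hr.1
        linarith
    apply intervalIntegral.integral_mono_on hR2.le (hcont _ hσ') (hcont _ hσ)
    intro r hr
    have hr1 : 1 < r := lt_of_lt_of_le hR hr.1
    have hr2 : 0 < r - 1 := by linarith
    apply div_le_div_of_nonneg_right _ hr2.le
    exact pow_le_pow_left₀ (hM' r hr1).1 (min_le_left _ _) 2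
  have hP := P0_le hσ' hM' hR hR2.le
  have hlog : Real.log (1 / (R - 1)) ≤ Real.log (R ^ 2 / (R ^ 2 - 1)) + 1 := by
    have h2 : 0 < R - 1 := by linarith
    have h3 : 0 < R ^ 2 - 1 := by nlinarith
    have h4 : 1 / (R - 1) ≤ 2 * (R ^ 2 / (R ^ 2 - 1)) := by
      rw [← mul_div_assoc, div_le_div_iff₀ h2 h3]
      have h7 : R + 1 ≤ 2 * R ^ 2 := by nlinarith
      have h8 := mul_le_mul_of_nonneg_right h7 h2.le
      linarith
    have h5 := Real.log_le_log (by positivity) h4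
    rw [Real.log_mul (by norm_num) (by positivity)] at h5
    have h6 := Real.log_two_lt_d9
    linarith
  obtain ⟨L, hLd⟩ : ∃ L, L = Real.log (R ^ 2 / (R ^ 2 - 1)) := ⟨_, rfl⟩
  obtain ⟨m, hm⟩ : ∃ m, m = M ^ 2 / 3 + 1 / 4 * (σ₀ ^ 2 * (L + 1) + K) := ⟨_, rfl⟩
  have hPm : P0 (fun r => min (σ r) (6 + K)) (Real.log R⁻¹) ≤ m := by
    rw [hm]
    have h2 : σ₀ ^ 2 * Real.log (1 / (R - 1)) ≤ σ₀ ^ 2 * (L + 1) := by
      apply mul_le_mul_of_nonneg_left _ (sq_nonneg _)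
      rw [hLd]
      exact hlog
    linarith
  have h4m : 4 * a * m = a * σ₀ ^ 2 * L + D := by
    rw [hm, hD]
    ring
  have hDL : D ≤ δ / 2 * L := by
    rw [← hLd, hΛ] at h1
    rw [div_lt_iff₀ hδ0] at h1
    linarith
  have hL0 : 0 < L := by rw [hLd]; exact hL
  have h4mL : 4 * a * m ≤ (1 - δ / 2) * L := by
    rw [h4m]
    have : a * σ₀ ^ 2 = 1 - δ := by rw [hδ]; ring
    rw [this]
    linarith
  have hlt : 4 * a * m < Real.log (R ^ 2 / (R ^ 2 - 1)) := by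
    rw [← hLd]
    have := mul_pos hδ0 hL0
    linarith
  refine (square_ext hH (fun s hs => P0_d hσ' hM' hs) (fun s hs => P1_d hσ' hM' hs)
    (fun s hs => P0_nonneg hσ' hM' hs) (fun s _ => F1_nonneg (Real.exp_pos s).le) hdr hR ha hPm
    hlt).trans ?_
  rw [← hLd]
  have h5 : 4 * a * m / L ≤ 1 - δ / 2 := by
    rw [div_le_iff₀ hL0]
    exact h4mL
  rw [div_le_div_iff₀ (by linarith) hδ0]
  linarith

end Pool.Agent.R302.SA
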